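import Pool.Agent.Lib.MP_e1f7e2_al.FA.Iface

set_option autoImplicit false

/-!
Module BASE (helper81): vertices of minimal degree.
-/

open MulOpposite

namespace Pool.Agent.Lib.MP_e1f7e2_al.FA.H81

theorem wt_one {n : ℕ} (w : Fin n → ℝ) : wt w 1 = 0 := by simp [wt]

theorem wt_mul {n : ℕ} (w : Fin n → ℝ) (u v : Wd n) : wt w (u * v) = wt w u + wt w v := by
  simp [wt]

theorem wt_of {n : ℕ} (w : Fin n → ℝ) (i : Fin n) : wt w (FreeMonoid.of i) = w i := by
  simp [wt]

theorem wt_pow {n : ℕ} (w : Fin n → ℝ) (u : Wd n) (k : ℕ) : wt w (u ^ k) = k * wt w u := by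
  induction k with
  | zero => simp [wt_one]
  | succ k ih => rw [pow_succ, wt_mul, ih]; push_cast; ring

/-- the degree is the weight of a word -/
theorem dg_val {K : Type*} [Field K] {n : ℕ} (w : Fin n → ℝ) (f : A K n) :
    ∃ u : Wd n, dg w f = wt w u := by
  unfold dg dgr
  split_ifs with h
  · obtain ⟨u, _, hu⟩ := Finset.exists_mem_eq_sup' h (wt w)
    exact ⟨u, hu⟩
  · exact ⟨1, (wt_one w).symm⟩

/-- substitution of letters preserves weights -/
theorem wt_map {n : ℕ} (w : Fin n → ℝ) (a b : Fin n) (U : Wd 2) :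
    wt ![w a, w b] U = wt w (FreeMonoid.map ![a, b] U) := by
  induction U using FreeMonoid.inductionOn' with
  | one => rw [map_one, wt_one, wt_one]
  | of_mul i U ih =>
    rw [map_mul, wt_mul, wt_mul, ih, FreeMonoid.map_of, wt_of, wt_of]
    congr 1
    fin_cases i <;> rfl

theorem not_mem_map {n : ℕ} {a b c : Fin n} (hca : c ≠ a) (hcb : c ≠ b) (U : Wd 2) :
    c ∉ (FreeMonoid.map ![a, b] U).toList := by
  rw [FreeMonoid.toList_map]
  intro h
  obtain ⟨i, _, hi⟩ := List.mem_map.1 h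
  fin_cases i
  · exact hca hi.symm
  · exact hcb hi.symm

theorem not_mem_pow {n : ℕ} {c : Fin n} (U : Wd n) (hU : c ∉ U.toList) (k : ℕ) :
    c ∉ (U ^ k).toList := by
  induction k with
  | zero => simp
  | succ k ih =>
    rw [pow_succ, FreeMonoid.toList_mul, List.mem_append]
    rintro (h | h)
    · exact ih h
    · exact hU h

theorem mem_pow {n : ℕ} {c : Fin n} (U : Wd n) (hU : c ∈ U.toList) (k : ℕ) (hk : 0 < k) :
    c ∈ (U ^ k).toList := by
  obtain ⟨k, rfl⟩ : ∃ j, k = j + 1 := ⟨k - 1, by omega⟩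
  rw [pow_succ, FreeMonoid.toList_mul, List.mem_append]
  exact Or.inr hU

/-- Module BASE. -/
theorem base (K : Type*) [Field K] (w : Fin 3 → ℝ) (hw : Gen w) (hd : DegFacts K w)
    (hc : ComwFacts K w) (hch : ChainFacts K 3) (hfree : FreeFacts K w) (hfr : FrFacts K w) :
    BaseStatement K w := by
  intro u v l hf _ hle
  have hu : 0 < dg w u := hfr.pos _ _ _ hf
  have hv : 0 < dg w v := hfr.pos _ _ _ (hfr.p12 _ _ _ hf)
  have hl : 0 < dg w l := hfr.pos _ _ _ (hfr.p12 _ _ _ (hfr.p23 _ _ _ hf))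
  have heq : dg w u + dg w v + dg w l = sg w := le_antisymm hle (hfr.ge _ _ _ hf)
  obtain ⟨U, hU⟩ := dg_val w u
  obtain ⟨V, hV⟩ := dg_val w v
  obtain ⟨L, hL⟩ := dg_val w l
  have hperm : (U * V * L).toList.Perm [0, 1, 2] := by
    refine hw.perm (U * V * L) (FreeMonoid.ofList [0, 1, 2]) ?_
    rw [wt_mul, wt_mul, ← hU, ← hV, ← hL, heq]
    simp [wt, sg]
    ring
  have ne : ∀ W : Wd 3, 0 < wt w W → 1 ≤ W.toList.length := by
    intro W hW
    by_contra hcon
    have h0 : W.toList = [] := List.eq_nil_of_length_eq_zero (by omega)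
    have : W = 1 := by
      rw [← FreeMonoid.ofList_toList W, h0]
      rfl
    rw [this, wt_one] at hW
    exact lt_irrefl _ hW
  have hlen := hperm.length_eq
  rw [FreeMonoid.toList_mul, FreeMonoid.toList_mul, List.length_append, List.length_append] at hlen
  have lu := ne U (by rw [← hU]; exact hu)
  have lv := ne V (by rw [← hV]; exact hv)
  have ll := ne L (by rw [← hL]; exact hl)
  simp only [List.length_cons, List.length_nil] at hlen
  have one : ∀ W : Wd 3, W.toList.length = 1 → ∃ a, W = FreeMonoid.of a := by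
    intro W hW
    obtain ⟨a, ha⟩ := List.length_eq_one_iff.1 hW
    exact ⟨a, by rw [← FreeMonoid.ofList_toList W, ha]; rfl⟩
  obtain ⟨a, rfl⟩ := one U (by omega)
  obtain ⟨b, rfl⟩ := one V (by omega)
  obtain ⟨c, rfl⟩ := one L (by omega)
  rw [wt_of] at hU hV hL
  have hnd : [a, b, c].Nodup := by
    have h1 : ([0, 1, 2] : List (Fin 3)).Nodup := by decide
    exact hperm.nodup_iff.2 h1
  have hab : a ≠ b := by
    intro h
    subst h
    simp at hnd
  have hca : c ≠ a := by
    intro h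
    subst h
    simp at hnd
  have hcb : c ≠ b := by
    intro h
    subst h
    simp at hnd
  have hncom : ¬ Com w u v := by
    intro hcom
    obtain ⟨p, q, hp, hq, he⟩ := hc.rat u v hu hv hcom
    have hpm := hw.perm (FreeMonoid.of a ^ q) (FreeMonoid.of b ^ p) (by
      rw [wt_pow, wt_pow, wt_of, wt_of, ← hU, ← hV, he])
    have h1 : a ∈ (FreeMonoid.of a ^ q).toList := mem_pow _ (by simp) q hq
    have h2 := hpm.mem_iff.1 h1
    exact not_mem_pow (FreeMonoid.of b) (by simpa using hab) p h2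
  refine ⟨hncom, ?_⟩
  -- degrees of elements of `B u v`
  have hB : ∀ x ∈ B u v, ∃ W : Wd 2, dg w x = wt w (FreeMonoid.map ![a, b] W) := by
    intro x hx
    obtain ⟨P, rfl⟩ := (hch.bmem u v x).1 hx
    obtain ⟨W, hW⟩ := dg_val ![dg w u, dg w v] P
    refine ⟨W, ?_⟩
    rw [hfree.fr0 u v P hu hv hncom, hW, hU, hV, wt_map]
  intro d hd' hdpos q hq
  obtain ⟨W, hW⟩ := hB d hd'
  obtain ⟨Q, hQ⟩ := hB q hq
  have hncom2 : ¬ Com w l d := by
    intro hcom
    obtain ⟨i, j, hi, hj, he⟩ := hc.rat l d hl hdpos hcom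
    have hpm := hw.perm (FreeMonoid.of c ^ j) (FreeMonoid.map ![a, b] W ^ i) (by
      rw [wt_pow, wt_pow, wt_of, ← hL, ← hW, he])
    have h1 : c ∈ (FreeMonoid.of c ^ j).toList := mem_pow _ (by simp) j hj
    have h2 := hpm.mem_iff.1 h1
    exact not_mem_pow _ (not_mem_map hca hcb W) i h2
  have hE : dg w (l * d - d * l) = dg w l + dg w d := by
    refine le_antisymm ?_ (not_lt.1 hncom2)
    refine (hd.sub_le _ _).trans (max_le (hd.mul_le _ _) ?_)
    rw [add_comm (dg w l)]
    exact hd.mul_le _ _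
  have hne : dg w q ≠ dg w (l * d - d * l) := by
    rw [hE, hQ, hL, hW]
    intro he
    have hpm := hw.perm (FreeMonoid.map ![a, b] Q) (FreeMonoid.of c * FreeMonoid.map ![a, b] W)
      (by rw [wt_mul, wt_of, he])
    have h1 : c ∈ (FreeMonoid.of c * FreeMonoid.map ![a, b] W).toList := by
      simp [FreeMonoid.toList_mul]
    exact not_mem_map hca hcb Q (hpm.mem_iff.2 h1)
  rcases lt_or_gt_of_ne hne with h | h
  · rw [hd.add_left _ _ h]
  · rw [hd.add_right _ _ h]
    exact h.le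

end Pool.Agent.Lib.MP_e1f7e2_al.FA.H81
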