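import Pool.Agent.Lib.MP_e1f7e2_al.FA.H81.Len

set_option autoImplicit false

/-!
Module PBB (helper81): `t`-degrees `0` and `≥ 1`.
-/

open MulOpposite

namespace Pool.Agent.Lib.MP_e1f7e2_al.FA.H81

open H47.Gr

section

variable {K : Type*} [Field K]

theorem lw_lift {w : Fin 3 → ℝ} (hlw : LwFacts K w) {h1 h2 : A K 3} {v ω : Wd 3}
    (hv : IsLw w h1 v) (hω : IsLw w h2 ω) (u : Wd 2) :
    IsLw w (FreeMonoid.lift ![h1, h2] u) (FreeMonoid.lift ![v, ω] u) := by
  induction u using FreeMonoid.inductionOn' with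
  | one =>
    have e1 : FreeMonoid.lift ![h1, h2] (1 : Wd 2) = 1 := map_one _
    have e2 : FreeMonoid.lift ![v, ω] (1 : Wd 2) = 1 := map_one _
    rw [e1, e2]
    have := hlw.pow h1 v 0 hv
    rwa [pow_zero, pow_zero] at this
  | of_mul i u ih =>
    have e1 : FreeMonoid.lift ![h1, h2] (FreeMonoid.of i * u) =
        (![h1, h2] i) * FreeMonoid.lift ![h1, h2] u := by
      rw [map_mul, FreeMonoid.lift_eval_of]
    have e2 : FreeMonoid.lift ![v, ω] (FreeMonoid.of i * u) =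
        (![v, ω] i) * FreeMonoid.lift ![v, ω] u := by
      rw [map_mul, FreeMonoid.lift_eval_of]
    rw [e1, e2]
    refine hlw.mul _ _ _ _ ?_ ih
    fin_cases i
    · exact hv
    · exact hω

/-- leading word of `P(h1, h2)` if the leading words generate a free monoid -/
theorem lw_ev {w : Fin 3 → ℝ} (hlw : LwFacts K w) {h1 h2 : A K 3} {v ω : Wd 3}
    (hv : IsLw w h1 v) (hω : IsLw w h2 ω)
    (hinj : Function.Injective (FreeMonoid.lift ![v, ω] : Wd 2 →* Wd 3)) (P : A K 2) (hP : P ≠ 0) :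
    ∃ u, P.coeff u ≠ 0 ∧ IsLw w (ev P h1 h2) (FreeMonoid.lift ![v, ω] u) := by
  classical
  set φ : Wd 2 → Wd 3 := fun u => FreeMonoid.lift ![v, ω] u with hφ
  have hφi : Function.Injective φ := hinj
  set F : Wd 2 → A K 3 := fun u => P.coeff u • FreeMonoid.lift ![h1, h2] u with hF
  set F' : Wd 3 → A K 3 := Function.extend φ F 0 with hF'
  have hF'e : ∀ u, F' (φ u) = F u := fun u => hφi.extend_apply F 0 u
  obtain ⟨x, hx, h3, _⟩ := hlw.sum (P.coeff.support.image φ) F' (fun x => x)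
    ((supp_ne hP).image φ)
    (by
      intro x hx
      obtain ⟨u, hu, rfl⟩ := Finset.mem_image.1 hx
      rw [hF'e]
      exact hlw.smul _ _ _ (Finsupp.mem_support_iff.1 hu) (lw_lift hlw hv hω u))
    (fun _ _ _ _ h => h)
  obtain ⟨u, hu, rfl⟩ := Finset.mem_image.1 hx
  refine ⟨u, Finsupp.mem_support_iff.1 hu, ?_⟩
  have e : ev P h1 h2 = ∑ x ∈ P.coeff.support.image φ, F' x := by
    unfold ev
    rw [evl_eq, Finset.sum_image fun _ _ _ _ h => hφi h]
    exact Finset.sum_congr rfl fun u _ => (hF'e u).symm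
  rw [e]
  exact h3

theorem length_pow {n : ℕ} (v : Wd n) (k : ℕ) :
    (v ^ k).toList.length = k * v.toList.length := by
  induction k with
  | zero => simp
  | succ k ih =>
    rw [pow_succ, FreeMonoid.toList_mul, List.length_append, ih]
    ring

theorem num1 (M C T Nq a b d2 d3 e1 e2 e3 : ℝ) (hM : 0 ≤ M) (hC : 0 ≤ C) (hT : 0 ≤ T)
    (hNq : M * (M * C) + M * C * T + M * C < Nq) (ha : 0 ≤ a) (hb : 0 ≤ b) (he1 : 0 ≤ e1)
    (he2 : 0 ≤ e2) (he3 : e3 ≤ M * C)
    (heq : a * e1 + b * (Nq * d2 + e2) = Nq * d3 + e3) (h : d3 + 1 ≤ b * d2) : False := by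
  have h7 : 0 ≤ a * e1 := mul_nonneg ha he1
  have h8 : 0 ≤ b * e2 := mul_nonneg hb he2
  have h10 : 0 ≤ M * (M * C) := by positivity
  have h11 : 0 ≤ M * C * T := by positivity
  have h12 : 0 ≤ M * C := by positivity
  have h9 : Nq * (d3 + 1) ≤ Nq * (b * d2) := mul_le_mul_of_nonneg_left h (by linarith)
  have h13 : b * (Nq * d2 + e2) = Nq * (b * d2) + b * e2 := by ring
  rw [h13] at heq
  linarith

theorem num2 (M C T Nq a b d2 d3 e1 e2 e3 : ℝ) (hM : 0 ≤ M) (hC : 0 ≤ C) (hT : 0 ≤ T)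
    (hNq : M * (M * C) + M * C * T + M * C < Nq) (haT : a ≤ T) (hbM : b ≤ M)
    (he1 : 0 ≤ e1) (he1' : e1 ≤ M * C) (he2 : 0 ≤ e2) (he2' : e2 ≤ M * C) (he3 : 0 ≤ e3)
    (heq : a * e1 + b * (Nq * d2 + e2) = Nq * d3 + e3) (h : b * d2 + 1 ≤ d3) : False := by
  have h10 : 0 ≤ M * (M * C) := by positivity
  have h11 : 0 ≤ M * C * T := by positivity
  have h12 : 0 ≤ M * C := by positivity
  have h5 : Nq * (b * d2 + 1) ≤ Nq * d3 := mul_le_mul_of_nonneg_left h (by linarith)
  have h6 : b * e2 ≤ M * (M * C) := mul_le_mul hbM he2' he2 hM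
  have h7 : a * e1 ≤ T * (M * C) := mul_le_mul haT he1' he1 hT
  have h13 : b * (Nq * d2 + e2) = Nq * (b * d2) + b * e2 := by ring
  have h14 : T * (M * C) = M * C * T := by ring
  rw [h13] at heq
  rw [h14] at h7
  linarith

end

/-- Module PBB. -/
theorem pbb (K : Type*) [Field K] (w : Fin 3 → ℝ) (hw : Gen w) (hF : Facts K w)
    (hlw : LwFacts K w) (hwl : WlStatement K w) (hwf : WfacFacts) (hpbn : PbnStatement K w) :
    PbbStatement K w := by
  intro z hz M
  have hd := hF.d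
  obtain ⟨μ, hμ, hμw⟩ : ∃ δ : ℝ, 0 < δ ∧ ∀ i, δ ≤ w i := by
    obtain ⟨i, hi⟩ := Finite.exists_min w
    exact ⟨w i, hw.pos i, hi⟩
  set C := sg w with hC
  have hCpos : 0 < C := by
    have h0 := hw.pos 0
    have h1 := hw.pos 1
    have h2 := hw.pos 2
    show 0 < w 0 + w 1 + w 2
    linarith
  obtain ⟨Λ0, hΛ0⟩ := exists_nat_ge ((M : ℝ) * C / μ)
  set Λ := M + Λ0 with hΛ
  set m' := M + Λ * M with hm'
  obtain ⟨m1, h1⟩ := hpbn z hz M
  refine ⟨Λ, max m1 m', ?_⟩
  intro θ wd hθ hnp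
  have np1 : NoPer m1 wd := noPer_mono (le_max_left _ _) hnp
  have np' : NoPer m' wd := noPer_mono (le_max_right _ _) hnp
  obtain ⟨N1, hN1⟩ := h1 θ wd hθ np1
  obtain ⟨N2, hN2⟩ := hwl m' θ wd hθ np'
  -- the degree of `θ`
  have hwt_len : ∀ u : Wd 3, u ≠ 1 → μ ≤ wt w u := by
    intro u hu
    cases u using FreeMonoid.casesOn with
    | one => exact absurd rfl hu
    | of_mul i u =>
      rw [wt_mul, wt_of]
      have h0 : 0 ≤ wt w u := by
        induction u using FreeMonoid.inductionOn' with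
        | one => rw [wt_one]
        | of_mul i u ih =>
          rw [wt_mul, wt_of]
          have := hw.pos i
          have := ih (by
            intro h
            have := congrArg (fun x : Wd 3 => x.toList.length) h
            simp at this)
          linarith
      have := hμw i
      linarith
  have hq : 0 < dg w θ := by
    rw [hlw.dgw _ _ hθ]
    refine lt_of_lt_of_le hμ (hwt_len wd ?_)
    rintro rfl
    exact absurd hnp.1 (by simp)
  set q := dg w θ with hqdef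
  obtain ⟨N3, hN3⟩ := exists_nat_gt (((M : ℝ) * (M * C) +
    M * C * ((M + 1) * (2 * wd.toList.length + m')) + M * C) / q)
  refine ⟨max (max N1 N2) (max N3 1), fun N hN H1 H2 H3 L1 L2 L3 hd1 hd2 hpos P hP => ?_⟩
  have hNN1 : N1 ≤ N := (le_max_left _ _).trans ((le_max_left _ _).trans hN)
  have hNN2 : N2 ≤ N := (le_max_right _ _).trans ((le_max_left _ _).trans hN)
  have hNN3 : N3 ≤ N := (le_max_left _ _).trans ((le_max_right _ _).trans hN)
  have hN1' : 1 ≤ N := (le_max_right _ _).trans ((le_max_right _ _).trans hN)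
  have hNq : (M : ℝ) * (M * C) + M * C * ((M + 1) * (2 * wd.toList.length + m')) + M * C <
      N * q := by
    have h2 : (N3 : ℝ) ≤ N := by exact_mod_cast hNN3
    have h3 := (div_lt_iff₀ hq).1 (lt_of_lt_of_le hN3 h2)
    exact h3
  set h1' := TN z θ N H1 with hh1
  set h2' := TN z θ N H2 with hh2
  set h3' := TN z θ N H3 with hh3
  set G1 := Th z H1 with hG1
  set G2 := Th z H2 with hG2
  set G3 := Th z H3 with hG3
  have hγ : 0 < dg w h3' := lt_of_le_of_lt (hd.nn _) hP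
  have ne_of_pos : ∀ f : A K 3, 0 < dg w f → f ≠ 0 := by
    rintro f hf rfl
    rw [hd.zero] at hf
    exact lt_irrefl _ hf
  have G1ne : G1 ≠ 0 := by
    intro h
    apply ne_of_pos _ hpos
    show sb (θ ^ N) (Th z H1) = 0
    rw [← hG1, h, map_zero]
  have G2ne : G2 ≠ 0 := by
    intro h
    rw [h] at hd2
    simp [dt] at hd2
  have G3ne : G3 ≠ 0 := by
    intro h
    apply ne_of_pos _ hγ
    show sb (θ ^ N) (Th z H3) = 0
    rw [← hG3, h, map_zero]
  have hMm : M ≤ m' := Nat.le_add_right _ _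
  obtain ⟨⟨W1, hW1s, hW1c, hW1w, hW1l⟩, hdg1⟩ := hN2 N hNN2 G1 G1ne (len_mono hMm L1)
  obtain ⟨⟨W2, hW2s, hW2c, hW2w, hW2l⟩, hdg2⟩ := hN2 N hNN2 G2 G2ne (len_mono hMm L2)
  obtain ⟨⟨W3, hW3s, hW3c, hW3w, hW3l⟩, hdg3⟩ := hN2 N hNN2 G3 G3ne (len_mono hMm L3)
  have hb : ∀ (G : A K 4) (W : Wd 4), Len M G → W ∈ G.coeff.support → wt (w4 w) W = et w G →
      0 ≤ et w G ∧ et w G ≤ M * C := by
    intro G W hG hW hwt
    rw [← hwt]
    refine ⟨wt_w4_nonneg hw.pos W, (wt_w4_le hw.pos W).trans ?_⟩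
    refine mul_le_mul_of_nonneg_right ?_ hCpos.le
    exact_mod_cast hG W hW
  obtain ⟨he1, he1'⟩ := hb G1 W1 L1 hW1s hW1w
  obtain ⟨he2, he2'⟩ := hb G2 W2 L2 hW2s hW2w
  obtain ⟨he3, he3'⟩ := hb G3 W3 L3 hW3s hW3w
  change IsLw w h1' (sw wd N W1) at hW1l
  change IsLw w h2' (sw wd N W2) at hW2l
  change dg w h1' = _ at hdg1
  change dg w h2' = _ at hdg2
  change dg w h3' = _ at hdg3
  set v := sw wd N W1 with hv
  set ω := sw wd N W2 with hω
  rw [hd1, Nat.cast_zero, mul_zero, zero_mul, zero_add] at hdg1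
  set d2 := dt G2 with hd2'
  set d3 := dt G3 with hd3'
  set e1 := et w G1 with he1d
  set e2 := et w G2 with he2d
  set e3 := et w G3 with he3d
  have hNqpos : 0 < (N : ℝ) * q := mul_pos (by exact_mod_cast hN1') hq
  have hd3M : d3 ≤ M := by
    have h2 : W3.toList.count 3 ≤ M := List.count_le_length.trans (L3 W3 hW3s)
    rwa [hW3c] at h2
  have hβpos : 0 < dg w h2' := by
    rw [hdg2]
    have h2 : (1 : ℝ) ≤ d2 := by exact_mod_cast hd2
    have h3 : (N : ℝ) * q * 1 ≤ N * q * d2 := mul_le_mul_of_nonneg_left h2 hNqpos.le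
    have h4 : (N : ℝ) * d2 * q = N * q * d2 := by ring
    rw [h4]
    linarith
  have hncom : ¬ Com w h1' h2' := hN1 N hNN1 H1 H2 L1 L2 hd1 hd2 hpos
  have hv1 : v ≠ 1 := by
    intro h
    have := hlw.dgw _ _ hW1l
    rw [h, wt_one] at this
    rw [this] at hpos
    exact lt_irrefl _ hpos
  have hvlen : v.toList.length ≤ m' := by
    rw [hv, sw_count_zero wd N W1 (by rw [hW1c]; exact hd1)]
    exact (L1 W1 hW1s).trans hMm
  have hμe1 : μ ≤ e1 := by
    rw [← hdg1, hlw.dgw _ _ hW1l]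
    exact hwt_len v hv1
  have hfac : Fac wd ω := fac_sw wd N hN1' W2 (by rw [hW2c]; exact hd2)
  have hinj := hwf.code m' wd v ω np' hv1 hvlen hfac
  have hdgev : ∀ R : A K 2, dg w (ev R h1' h2') = dg ![dg w h1', dg w h2'] R := fun R =>
    hF.t.fr0 h1' h2' R hpos hβpos hncom
  set α := dg w h1' with hα
  set β := dg w h2' with hβ
  set γ := dg w h3' with hγd
  have hPγ : dg w (ev P h1' h2') = γ := by
    rcases lt_trichotomy (dg w (ev P h1' h2')) γ with h | h | h
    · rw [hd.sub_left _ _ h] at hP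
      exact absurd hP (lt_irrefl _)
    · exact h
    · rw [hd.sub_right _ _ h] at hP
      exact absurd h (not_lt.2 hP.le)
  have hPγ' : dg ![α, β] P = γ := by rw [← hdgev, hPγ]
  set Q := cmp (wt ![α, β]) γ P with hQ
  have hQlt : dg w (h3' - ev Q h1' h2') < γ := by
    have e : h3' - ev Q h1' h2' = (h3' - ev P h1' h2') + ev (P - Q) h1' h2' := by
      rw [ev_sub]; abel
    have h2 : dg w (ev (P - Q) h1' h2') < γ := by
      rw [hdgev]
      have h3 : dgr (wt ![α, β]) P = γ := hPγ'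
      have h4 := sub_top_lt (ω := wt ![α, β]) (f := P) (by rw [h3]; exact hγ)
      rw [h3] at h4
      exact h4
    rw [e]
    exact lt_of_le_of_lt (hd.add_le _ _) (max_lt hP h2)
  have hQw : ∀ u, Q.coeff u ≠ 0 → (u.toList.count 0 : ℝ) * α + u.toList.count 1 * β = γ := by
    intro u hu
    rw [← wt_two]
    exact cmp_hg γ P u hu
  set p : Wd 2 → Prop := fun u => u.toList.count 1 * d2 = d3 with hp
  set P1 := fil p Q with hP1
  set P2 := fil (fun u => ¬ p u) Q with hP2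
  have hsum : P1 + P2 = Q := fil_add_not p Q
  have hΛ0' : (M : ℝ) * C ≤ Λ0 * μ := (div_le_iff₀ hμ).1 hΛ0
  have hP1len : Len Λ P1 := by
    rw [len_iff]
    intro u hu
    obtain ⟨hpu, hQu⟩ := coeff_fil_ne hu
    have h2 := hQw u hQu
    rw [len_two]
    have hb1 : u.toList.count 1 ≤ M := by
      have h3 : u.toList.count 1 * d2 = d3 := hpu
      calc u.toList.count 1 = u.toList.count 1 * 1 := (mul_one _).symm
        _ ≤ u.toList.count 1 * d2 := Nat.mul_le_mul_left _ hd2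
        _ = d3 := h3
        _ ≤ M := hd3M
    have hb0 : u.toList.count 0 ≤ Λ0 := by
      have h3 : (u.toList.count 1 : ℝ) * d2 = d3 := by exact_mod_cast hpu
      rw [hdg1, hdg2, hdg3] at h2
      have h4 : (u.toList.count 0 : ℝ) * e1 + u.toList.count 1 * e2 = e3 := by
        have h5 : (N : ℝ) * d3 * q = u.toList.count 1 * (N * d2 * q) := by
          rw [← h3]; ring
        linarith
      have h5 : (u.toList.count 0 : ℝ) * μ ≤ Λ0 * μ := by
        have h6 : (u.toList.count 0 : ℝ) * μ ≤ u.toList.count 0 * e1 :=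
          mul_le_mul_of_nonneg_left hμe1 (Nat.cast_nonneg _)
        have h7 : 0 ≤ (u.toList.count 1 : ℝ) * e2 := mul_nonneg (Nat.cast_nonneg _) he2
        linarith
      exact_mod_cast le_of_mul_le_mul_right h5 hμ
    omega
  by_cases hP20 : P2 = 0
  · refine ⟨P1, hP1len, ?_⟩
    have : P1 = Q := by rw [← hsum, hP20, add_zero]
    rw [this]
    exact hQlt
  exfalso
  -- leading words
  obtain ⟨u, hu, hul⟩ := lw_ev hlw hW1l hW2l hinj P2 hP20
  have hP2dg : dg w (ev P2 h1' h2') = γ := by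
    rw [hdgev]
    refine hg_dgr (ω := wt ![α, β]) ?_ hP20
    intro u hu
    rw [wt_two]
    exact hQw u (coeff_fil_ne hu).2
  set R := h3' - ev P1 h1' h2' with hR
  have hRlt : dg w (R - ev P2 h1' h2') < dg w (ev P2 h1' h2') := by
    rw [hP2dg]
    have e : R - ev P2 h1' h2' = h3' - ev Q h1' h2' := by
      rw [hR, ← hsum, ev_add]; abel
    rw [e]
    exact hQlt
  have hRl : IsLw w R (FreeMonoid.lift ![v, ω] u) := by
    have := hlw.lt (ev P2 h1' h2') (R - ev P2 h1' h2') _ hul (by rw [hP2dg]; exact hγ) hRlt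
    rwa [add_sub_cancel] at this
  have hRne : R ≠ 0 := hlw.ne _ _ hRl
  set G := Th z (H3 - ev P1 H1 H2) with hG
  have hRG : R = sb (θ ^ N) G := by
    have e : TN z θ N (H3 - ev P1 H1 H2) = R := by
      rw [map_sub, map_ev]
    rw [← e]
    rfl
  have hGne : G ≠ 0 := by
    intro h
    apply hRne
    rw [hRG, h, map_zero]
  have hGlen : Len m' G := by
    rw [hG, map_sub, map_ev]
    refine len_sub (len_mono hMm L3) ?_
    refine len_mono (Nat.le_add_left _ _) (len_evl ![G1, G2] ?_ P1 hP1len)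
    intro i
    fin_cases i
    · exact L1
    · exact L2
  obtain ⟨⟨W, hWs, _, _, hWl⟩, _⟩ := hN2 N hNN2 G hGne hGlen
  rw [← hRG] at hWl
  have huW : FreeMonoid.lift ![v, ω] u = sw wd N W := hlw.uniq _ _ _ hRl hWl
  -- a long power of `v`
  obtain ⟨k, U1, U2, hU, hcount⟩ := run_word u
  have hfk : Fac (v ^ k) (sw wd N W) := by
    rw [← huW, hU, map_mul, map_mul, map_pow, FreeMonoid.lift_eval_of]
    exact ⟨_, _, rfl⟩
  have hnf : ¬ Fac wd (v ^ k) := hwf.per m' wd v k np' hvlen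
  have hlen := hwf.fac wd N W (v ^ k) hfk hnf
  rw [length_pow] at hlen
  have hvl1 : 1 ≤ v.toList.length := by
    rcases Nat.eq_zero_or_pos v.toList.length with h0 | h0
    · exfalso
      apply hv1
      have h5 := List.eq_nil_of_length_eq_zero h0
      rw [← FreeMonoid.ofList_toList v, h5]
      rfl
    · exact h0
  have hk : k ≤ 2 * wd.toList.length + m' := by
    have h5 : k * 1 ≤ k * v.toList.length := Nat.mul_le_mul_left _ hvl1
    have h6 := hGlen W hWs
    omega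
  -- numbers
  obtain ⟨hpu, hQu⟩ := coeff_fil_ne hu
  have heq := hQw u hQu
  rw [hdg1, hdg2, hdg3] at heq
  have heq' : (u.toList.count 0 : ℝ) * e1 + (u.toList.count 1 : ℝ) * ((N : ℝ) * q * d2 + e2) =
      (N : ℝ) * q * d3 + e3 := by
    rw [mul_right_comm (N : ℝ) q (d2 : ℝ), mul_right_comm (N : ℝ) q (d3 : ℝ)]
    exact heq
  have hT : (0 : ℝ) ≤ ((M : ℝ) + 1) * (2 * wd.toList.length + m') := by
    have g1 : (0 : ℝ) ≤ (M : ℝ) := Nat.cast_nonneg M
    have g2 : (0 : ℝ) ≤ (wd.toList.length : ℝ) := Nat.cast_nonneg _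
    have g3 : (0 : ℝ) ≤ (m' : ℝ) := Nat.cast_nonneg m'
    exact mul_nonneg (by linarith) (by linarith)
  have hlt : u.toList.count 1 * d2 < d3 := by
    by_contra hcon
    have hne : u.toList.count 1 * d2 ≠ d3 := hpu
    have h5 : d3 + 1 ≤ u.toList.count 1 * d2 := by omega
    have h6 : (d3 : ℝ) + 1 ≤ (u.toList.count 1 : ℝ) * d2 := by
      have h7 : ((d3 + 1 : ℕ) : ℝ) ≤ ((u.toList.count 1 * d2 : ℕ) : ℝ) := Nat.cast_le.2 h5
      rw [Nat.cast_add, Nat.cast_one, Nat.cast_mul] at h7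
      exact h7
    exact num1 M C _ _ _ _ _ _ _ _ _ (Nat.cast_nonneg M) hCpos.le hT hNq (Nat.cast_nonneg _)
      (Nat.cast_nonneg _) he1 he2 he3' heq' h6
  have hbM : u.toList.count 1 ≤ M := by
    have h5 : u.toList.count 1 * 1 ≤ u.toList.count 1 * d2 := Nat.mul_le_mul_left _ hd2
    omega
  have haM : u.toList.count 0 ≤ (M + 1) * (2 * wd.toList.length + m') :=
    hcount.trans (Nat.mul_le_mul (by omega) hk)
  have haM' : (u.toList.count 0 : ℝ) ≤ ((M : ℝ) + 1) * (2 * wd.toList.length + m') := by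
    have h7 : ((u.toList.count 0 : ℕ) : ℝ) ≤ (((M + 1) * (2 * wd.toList.length + m') : ℕ) : ℝ) :=
      Nat.cast_le.2 haM
    rw [Nat.cast_mul, Nat.cast_add, Nat.cast_one, Nat.cast_add, Nat.cast_mul] at h7
    exact h7
  have hltr : (u.toList.count 1 : ℝ) * d2 + 1 ≤ d3 := by
    have h7 : ((u.toList.count 1 * d2 + 1 : ℕ) : ℝ) ≤ ((d3 : ℕ) : ℝ) := Nat.cast_le.2 hlt
    rw [Nat.cast_add, Nat.cast_one, Nat.cast_mul] at h7
    exact h7
  exact num2 M C _ _ _ _ _ _ _ _ _ (Nat.cast_nonneg M) hCpos.le hT hNq haM'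
    (Nat.cast_le.2 hbM) he1 he1' he2 he2' he3 heq' hltr

end Pool.Agent.Lib.MP_e1f7e2_al.FA.H81
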