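import Pool.Agent.Lib.MP_e1f7e2_al.FA.Iface2
import Pool.Agent.Lib.MP_e1f7e2_al.FA.H47.Gr
import Pool.Agent.Lib.MP_e1f7e2_al.FA.H74.Chain
import Pool.Agent.Lib.MP_e1f7e2_al.FA.H81.Base3

set_option autoImplicit false

/-!
Lengths of words, substitutions, words in two letters (helper81).
-/

open MulOpposite

namespace Pool.Agent.Lib.MP_e1f7e2_al.FA.H81

open H47.Gr

section

variable {K : Type*} [Field K] {n m : ℕ}

theorem len_iff {k : ℕ} {f : A K n} : Len k f ↔ ∀ u, f.coeff u ≠ 0 → u.toList.length ≤ k := by
  unfold Len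
  simp only [Finsupp.mem_support_iff]

theorem len_mono {k l : ℕ} (h : k ≤ l) {f : A K n} (hf : Len k f) : Len l f :=
  fun u hu => (hf u hu).trans h

theorem len_zero (k : ℕ) : Len k (0 : A K n) := by
  rw [len_iff]
  intro u hu
  rw [MonoidAlgebra.coeff_zero] at hu
  exact absurd rfl hu

theorem len_add {k : ℕ} {f g : A K n} (hf : Len k f) (hg : Len k g) : Len k (f + g) := by
  rw [len_iff] at *
  intro u hu
  rw [coeff_add] at hu
  by_cases h : f.coeff u = 0
  · refine hg u fun h2 => hu ?_
    rw [h, h2, add_zero]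
  · exact hf u h

theorem len_sub {k : ℕ} {f g : A K n} (hf : Len k f) (hg : Len k g) : Len k (f - g) := by
  rw [len_iff] at *
  intro u hu
  rw [coeff_sub] at hu
  by_cases h : f.coeff u = 0
  · refine hg u fun h2 => hu ?_
    rw [h, h2, sub_zero]
  · exact hf u h

theorem len_smul {k : ℕ} (c : K) {f : A K n} (hf : Len k f) : Len k (c • f) := by
  rw [len_iff] at *
  intro u hu
  rw [coeff_smul] at hu
  exact hf u (right_ne_zero_of_mul hu)

theorem len_mul {k l : ℕ} {f g : A K n} (hf : Len k f) (hg : Len l g) : Len (k + l) (f * g) := by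
  rw [len_iff] at *
  intro u hu
  obtain ⟨a, b, ha, hb, rfl⟩ := supp_mul (ω := wt (fun _ : Fin n => (0 : ℝ))) (wt_mul _) hu
  rw [FreeMonoid.toList_mul, List.length_append]
  exact add_le_add (hf a ha) (hg b hb)

theorem len_one : Len 0 (1 : A K n) := by
  classical
  rw [len_iff]
  intro u hu
  rw [MonoidAlgebra.one_def, MonoidAlgebra.coeff_single_apply] at hu
  by_cases h : (1 : Wd n) = u
  · rw [← h]; rfl
  · rw [if_neg h] at hu
    exact absurd rfl hu

theorem len_sum {ι : Type*} {k : ℕ} (s : Finset ι) (F : ι → A K n) (h : ∀ i ∈ s, Len k (F i)) :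
    Len k (∑ i ∈ s, F i) := by
  classical
  induction s using Finset.induction_on with
  | empty => rw [Finset.sum_empty]; exact len_zero k
  | insert a s ha ih =>
    rw [Finset.sum_insert ha]
    exact len_add (h a (Finset.mem_insert_self _ _)) (ih fun i hi => h i (Finset.mem_insert_of_mem hi))

theorem evl_eq {R : Type*} [Ring R] [Algebra K R] (F : Fin m → R) (P : A K m) :
    evl F P = ∑ u ∈ P.coeff.support, P.coeff u • FreeMonoid.lift F u := by
  unfold evl
  rw [MonoidAlgebra.lift_apply]
  rfl

theorem len_lift {M : ℕ} (F : Fin m → A K n) (hF : ∀ i, Len M (F i)) (u : Wd m) :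
    Len (u.toList.length * M) (FreeMonoid.lift F u) := by
  induction u using FreeMonoid.inductionOn' with
  | one =>
    have h1 : FreeMonoid.lift F (1 : Wd m) = 1 := map_one _
    rw [h1]
    exact len_mono (Nat.zero_le _) len_one
  | of_mul i u ih =>
    have h1 : FreeMonoid.lift F (FreeMonoid.of i * u) = F i * FreeMonoid.lift F u := by
      rw [map_mul, FreeMonoid.lift_eval_of]
    rw [h1]
    have h := len_mul (hF i) ih
    refine len_mono (le_of_eq ?_) h
    rw [FreeMonoid.toList_mul, FreeMonoid.toList_of, List.length_append, List.length_singleton]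
    ring

theorem len_evl {M L : ℕ} (F : Fin m → A K n) (hF : ∀ i, Len M (F i)) (P : A K m) (hP : Len L P) :
    Len (L * M) (evl F P) := by
  rw [evl_eq]
  refine len_sum _ _ fun u hu => len_smul _ ?_
  exact len_mono (Nat.mul_le_mul_right M (hP u hu)) (len_lift F hF u)

theorem map_lift {R S : Type*} [Ring R] [Algebra K R] [Ring S] [Algebra K S] (φ : R →ₐ[K] S)
    (F : Fin m → R) (u : Wd m) :
    φ (FreeMonoid.lift F u) = FreeMonoid.lift (fun i => φ (F i)) u := by
  induction u using FreeMonoid.inductionOn' with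
  | one => rw [map_one, map_one, map_one]
  | of_mul i u ih => rw [map_mul, map_mul, map_mul, ih, FreeMonoid.lift_eval_of,
      FreeMonoid.lift_eval_of]

theorem map_evl {R S : Type*} [Ring R] [Algebra K R] [Ring S] [Algebra K S] (φ : R →ₐ[K] S)
    (F : Fin m → R) (P : A K m) : φ (evl F P) = evl (fun i => φ (F i)) P := by
  rw [evl_eq, evl_eq, map_sum]
  refine Finset.sum_congr rfl fun u _ => ?_
  rw [map_smul, map_lift]

theorem map_ev {m : ℕ} (φ : A K n →ₐ[K] A K m) (P : A K 2) (f g : A K n) :
    φ (ev P f g) = ev P (φ f) (φ g) := by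
  unfold ev
  rw [map_evl]
  congr 1
  congr 1
  funext i
  fin_cases i <;> rfl

theorem ev_add (P Q : A K 2) (f g : A K n) : ev (P + Q) f g = ev P f g + ev Q f g := map_add _ _ _

theorem ev_sub (P Q : A K 2) (f g : A K n) : ev (P - Q) f g = ev P f g - ev Q f g := map_sub _ _ _

open Classical in
/-- the part of `f` of the words with property `p` -/
noncomputable def fil (p : Wd n → Prop) (f : A K n) : A K n :=
  MonoidAlgebra.ofCoeff (f.coeff.filter p)

open Classical in
theorem coeff_fil (p : Wd n → Prop) (f : A K n) (u : Wd n) :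
    (fil p f).coeff u = if p u then f.coeff u else 0 := by
  unfold fil
  rw [MonoidAlgebra.coeff_ofCoeff, Finsupp.filter_apply]

theorem fil_add_not (p : Wd n → Prop) (f : A K n) : fil p f + fil (fun u => ¬ p u) f = f := by
  classical
  apply ext'
  intro u
  rw [coeff_add, coeff_fil, coeff_fil]
  by_cases h : p u
  · rw [if_pos h, if_neg (not_not.2 h), add_zero]
  · rw [if_neg h, if_pos h, zero_add]

theorem coeff_fil_ne {p : Wd n → Prop} {f : A K n} {u : Wd n} (h : (fil p f).coeff u ≠ 0) :
    p u ∧ f.coeff u ≠ 0 := by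
  classical
  rw [coeff_fil] at h
  by_cases hp : p u
  · rw [if_pos hp] at h
    exact ⟨hp, h⟩
  · rw [if_neg hp] at h
    exact absurd rfl h

end

/-! ### words in two letters -/

theorem run (u : List (Fin 2)) : ∀ j : ℕ, ∃ (k : ℕ) (u1 u2 : List (Fin 2)),
    List.replicate j 0 ++ u = u1 ++ List.replicate k 0 ++ u2 ∧
      j + u.count 0 ≤ (u.count 1 + 1) * k := by
  induction u with
  | nil =>
    intro j
    exact ⟨j, [], [], by simp, by simp⟩
  | cons a u ih =>
    intro j
    by_cases ha : a = 0
    · subst ha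
      obtain ⟨k, u1, u2, h1, h2⟩ := ih (j + 1)
      refine ⟨k, u1, u2, ?_, ?_⟩
      · rw [← h1, List.replicate_succ']
        simp
      · have e1 : List.count (0 : Fin 2) (0 :: u) = List.count 0 u + 1 := by simp
        have e2 : List.count (1 : Fin 2) (0 :: u) = List.count 1 u := by simp
        rw [e1, e2]
        omega
    · have ha1 : a = 1 := by omega
      subst ha1
      have e1 : List.count (0 : Fin 2) (1 :: u) = List.count 0 u := by simp
      have e2 : List.count (1 : Fin 2) (1 :: u) = List.count 1 u + 1 := by simp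
      obtain ⟨k, u1, u2, h1, h2⟩ := ih 0
      rw [List.replicate_zero, List.nil_append] at h1
      rw [e1, e2]
      rcases le_total j k with hjk | hjk
      · refine ⟨k, List.replicate j 0 ++ 1 :: u1, u2, ?_, ?_⟩
        · rw [h1]
          simp
        · nlinarith
      · refine ⟨j, [], 1 :: u, by simp, ?_⟩
        have h3 : (List.count 1 u + 1) * k ≤ (List.count 1 u + 1) * j := Nat.mul_le_mul_left _ hjk
        nlinarith

theorem ofList_replicate {n : ℕ} (a : Fin n) (k : ℕ) :
    FreeMonoid.ofList (List.replicate k a) = FreeMonoid.of a ^ k := by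
  induction k with
  | zero => rfl
  | succ k ih =>
    rw [List.replicate_succ, FreeMonoid.ofList_cons, ih, pow_succ']

theorem run_word (U : Wd 2) : ∃ (k : ℕ) (U1 U2 : Wd 2), U = U1 * FreeMonoid.of 0 ^ k * U2 ∧
    U.toList.count 0 ≤ (U.toList.count 1 + 1) * k := by
  obtain ⟨k, u1, u2, h1, h2⟩ := run U.toList 0
  rw [List.replicate_zero, List.nil_append] at h1
  refine ⟨k, FreeMonoid.ofList u1, FreeMonoid.ofList u2, ?_, by omega⟩
  rw [← ofList_replicate, ← FreeMonoid.ofList_append, ← FreeMonoid.ofList_append, ← h1,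
    FreeMonoid.ofList_toList]

theorem len_two (U : Wd 2) : U.toList.length = U.toList.count 0 + U.toList.count 1 := by
  induction U using FreeMonoid.inductionOn' with
  | one => rfl
  | of_mul i U ih =>
    rw [FreeMonoid.toList_mul, FreeMonoid.toList_of, List.singleton_append, List.length_cons, ih,
      List.count_cons, List.count_cons]
    fin_cases i <;> simp <;> omega

theorem wt_two (α β : ℝ) (U : Wd 2) :
    wt ![α, β] U = U.toList.count 0 * α + U.toList.count 1 * β := by
  induction U using FreeMonoid.inductionOn' with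
  | one => rw [wt_one]; simp
  | of_mul i U ih =>
    rw [wt_mul, wt_of, ih, FreeMonoid.toList_mul, FreeMonoid.toList_of, List.singleton_append,
      List.count_cons, List.count_cons]
    fin_cases i <;> simp <;> ring

/-! ### words in four letters -/

theorem sw_count_zero (wd : Wd 3) (N : ℕ) (W : Wd 4) (h : W.toList.count 3 = 0) :
    (sw wd N W).toList.length = W.toList.length := by
  induction W using FreeMonoid.inductionOn' with
  | one => rfl
  | of_mul i W ih =>
    rw [FreeMonoid.toList_mul, FreeMonoid.toList_of, List.singleton_append, List.count_cons] at h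
    rw [map_mul, FreeMonoid.toList_mul, List.length_append, ih (by omega), FreeMonoid.toList_mul,
      FreeMonoid.toList_of, List.singleton_append, List.length_cons]
    have hi : i ≠ 3 := by
      rintro rfl
      simp at h
    have h1 : (sw wd N (FreeMonoid.of i)).toList.length = 1 := by
      unfold sw
      rw [FreeMonoid.lift_eval_of]
      fin_cases i
      · rfl
      · rfl
      · rfl
      · exact absurd rfl hi
    omega

theorem fac_sw (wd : Wd 3) (N : ℕ) (hN : 1 ≤ N) (W : Wd 4) (h : 1 ≤ W.toList.count 3) :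
    Fac wd (sw wd N W) := by
  induction W using FreeMonoid.inductionOn' with
  | one => simp at h
  | of_mul i W ih =>
    rw [map_mul]
    by_cases hi : i = 3
    · subst hi
      have h1 : sw wd N (FreeMonoid.of 3) = wd ^ N := by
        unfold sw
        rw [FreeMonoid.lift_eval_of]
        rfl
      obtain ⟨N', rfl⟩ : ∃ N', N = N' + 1 := ⟨N - 1, by omega⟩
      refine ⟨1, wd ^ N' * sw wd (N' + 1) W, ?_⟩
      rw [h1, pow_succ', one_mul, mul_assoc]
    · rw [FreeMonoid.toList_mul, FreeMonoid.toList_of, List.singleton_append,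
        List.count_cons_of_ne (by simpa using hi)] at h
      obtain ⟨a, b, hab⟩ := ih h
      refine ⟨sw wd N (FreeMonoid.of i) * a, b, ?_⟩
      rw [hab]
      simp only [mul_assoc]

theorem wt_w4_nonneg {w : Fin 3 → ℝ} (hw : ∀ i, 0 < w i) (W : Wd 4) : 0 ≤ wt (w4 w) W := by
  induction W using FreeMonoid.inductionOn' with
  | one => rw [wt_one]
  | of_mul i W ih =>
    rw [wt_mul, wt_of]
    have : 0 ≤ w4 w i := by
      fin_cases i
      · exact (hw 0).le
      · exact (hw 1).le
      · exact (hw 2).le
      · exact le_rfl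
    linarith

theorem wt_w4_le {w : Fin 3 → ℝ} (hw : ∀ i, 0 < w i) (W : Wd 4) :
    wt (w4 w) W ≤ W.toList.length * sg w := by
  induction W using FreeMonoid.inductionOn' with
  | one => rw [wt_one]; simp
  | of_mul i W ih =>
    rw [wt_mul, wt_of, FreeMonoid.toList_mul, FreeMonoid.toList_of, List.singleton_append,
      List.length_cons]
    have h0 := hw 0
    have h1 := hw 1
    have h2 := hw 2
    have : w4 w i ≤ sg w := by
      unfold sg
      fin_cases i
      · show w 0 ≤ _; linarith
      · show w 1 ≤ _; linarith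
      · show w 2 ≤ _; linarith
      · show (0 : ℝ) ≤ _; linarith
    push_cast
    linarith

theorem noPer_mono {k l : ℕ} (h : k ≤ l) {u : Wd 3} (hu : NoPer l u) : NoPer k u :=
  ⟨lt_of_le_of_lt h hu.1, fun r h1 h2 => hu.2 r h1 (h2.trans h)⟩

end Pool.Agent.Lib.MP_e1f7e2_al.FA.H81
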